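import Pool.Agent.helper24.TG.S4

set_option linter.all false
set_option autoImplicit false

/-!
# Module QD2 (MP_ce98d8_co): independent subsets of small sets (deterministic part)
-/

namespace Pool.Agent.helper24.TG

open Finset Classical
open Pool.Agent.helper11.Tight (nb eo mem_nb)

theorem QD2 : QD2_stmt := by
  intro p P O A V _ _ _ _ _ _ _ _ _ H v T φ hA h2 E0 hE0 hM hP S hS hF
  by_contra hcon
  push Not at hcon
  have hc : 10 ^ 6 ≤ p.c := by
    have h1 := p.hLog
    have h2 := p.hLam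
    nlinarith
  -- q is positive
  have hq : 1 ≤ p.q := by
    have h3 := p.N4
    have h4 := p.hLa
    have h5 : 1 ≤ p.c ^ (p.kT + 12) := Nat.one_le_pow _ _ (by omega)
    nlinarith
  set S2 := S.filter (fun x => ∃ y ∈ S, x.1 = y.1 ∧ x ≠ y) with hS2
  set S1 := S.filter (fun x => ¬ ∃ y ∈ S, x.1 = y.1 ∧ x ≠ y) with hS1
  have hcard : S2.card + S1.card = S.card := Finset.card_filter_add_card_filter_not _
  have hS2s : S2 ⊆ S := Finset.filter_subset _ _
  have hS1s : S1 ⊆ S := Finset.filter_subset _ _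
  have h2k : S2.card < p.B * (p.c ^ 2 * p.q / (2 * p.B)) := by
    by_contra hlt
    push Not at hlt
    refine hM ⟨S2, hS2s.trans hS, ?_, ?_, hlt⟩
    · intro x hx
      obtain ⟨hxS, y, hy, hxy, hne⟩ := Finset.mem_filter.mp hx
      exact ⟨y, Finset.mem_filter.mpr ⟨hy, x, hxS, hxy.symm, hne.symm⟩, hxy, hne⟩
    · intro x hx y hy
      exact hF x (hS2s hx) y (hS2s hy)
  have h2k' : 2 * p.B * (p.c ^ 2 * p.q / (2 * p.B)) ≤ p.c ^ 2 * p.q := Nat.mul_div_le _ _
  set k2 := p.c ^ 2 * p.q / (2 * p.B) with hk2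
  have h2k2 : 2 * p.B * k2 = 2 * (p.B * k2) := by ring
  set a := p.c ^ 2 * p.q / 4 with ha
  have ha4 : 4 * a ≤ p.c ^ 2 * p.q := Nat.mul_div_le _ _
  have ha4' : p.c ^ 2 * p.q < 4 * a + 4 := by omega
  have hS1c : 2 * a ≤ S1.card := by omega
  obtain ⟨A1, hA1, hA1c⟩ := Finset.exists_subset_card_eq (s := S1) (n := a) (by omega)
  obtain ⟨A2, hA2, hA2c⟩ := Finset.exists_subset_card_eq (s := S1 \ A1) (n := a) (by
    rw [Finset.card_sdiff_of_subset hA1]; omega)
  have hA2s : A2 ⊆ S1 := hA2.trans Finset.sdiff_subset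
  have htyp : ∀ x ∈ S1, ∀ y ∈ S1, x.1 = y.1 → x = y := by
    intro x hx y hy hxy
    by_contra hne
    exact (Finset.mem_filter.mp hx).2 ⟨y, hS1s hy, hxy, hne⟩
  refine hP ⟨A1, (hA1.trans hS1s).trans hS, A2, (hA2s.trans hS1s).trans hS, hA1c, hA2c, ?_, ?_, ?_, ?_⟩
  · exact Finset.disjoint_of_subset_right hA2 Finset.disjoint_sdiff
  · intro x hx y hy
    exact htyp x (Finset.union_subset hA1 hA2s hx) y (Finset.union_subset hA1 hA2s hy)
  · -- H2
    have hcq : p.c * p.q ≤ p.c ^ 2 * p.q := by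
      have : p.c ≤ p.c ^ 2 := by nlinarith
      exact Nat.mul_le_mul_right _ this
    have hc2 : 10 ^ 6 * (p.c * p.q) ≤ p.c ^ 2 * p.q := by
      calc 10 ^ 6 * (p.c * p.q) ≤ p.c * (p.c * p.q) := Nat.mul_le_mul_right _ hc
        _ = _ := by ring
    have hcq1 : 10 ^ 6 ≤ p.c * p.q := by nlinarith
    have hqcq : p.q ≤ p.c * p.q := Nat.le_mul_of_pos_left _ (by omega)
    have hccq : p.c ≤ p.c * p.q := Nat.le_mul_of_pos_right _ (by omega)
    have hH := h2 A1 (by rw [hA1c]; omega) (by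
      intro L
      rw [hA1c]
      have h1 : (A1 ∩ lin H v L).card ≤ p.q + 1 := by
        rw [← card_lin H v L]
        exact Finset.card_le_card Finset.inter_subset_right
      calc 128 * p.c * (A1 ∩ lin H v L).card ≤ 128 * p.c * (p.q + 1) :=
            Nat.mul_le_mul_left _ h1
        _ = 128 * (p.c * p.q) + 128 * p.c := by ring
        _ ≤ a := by omega)
    refine le_trans ?_ hH.le
    refine Finset.card_le_card_of_injOn (fun y => y.1) ?_ ?_
    · intro y hy
      obtain ⟨hy1, hy2⟩ := Finset.mem_filter.mp hy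
      refine Finset.mem_coe.mpr (Finset.mem_filter.mpr ⟨Finset.mem_univ _, y.2, ?_⟩)
      have h3 : (Gam H v (y.1, y.2) ∩ A1).card + (A1 \ Gam H v y).card = A1.card := by
        rw [Finset.inter_comm]
        exact Finset.card_inter_add_card_sdiff _ _
      show A1.card ≤ 4 * (Gam H v (y.1, y.2) ∩ A1).card
      omega
    · intro x hx y hy hxy
      have hx1 := (Finset.mem_filter.mp hx).1
      have hy1 := (Finset.mem_filter.mp hy).1
      exact htyp x (hA2s hx1) y (hA2s hy1) hxy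
  · intro x hx y hy hadj
    exact hF x (hS1s (hA1 hx)) y (hS1s (hA2s hy)) hadj

end Pool.Agent.helper24.TG
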