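import Pool.Agent.helper24.TG.S3

set_option linter.all false
set_option autoImplicit false

/-!
# Module QX (MP_ce98d8_co): few conflicts
-/

namespace Pool.Agent.helper24.TG

open Finset Classical
open Pool.Agent.helper11.Tight (nb eo mem_nb)

/-- parameters: the size of `q` -/
theorem QX_q_big (p : Par) : 4 ≤ p.q ∧ 1 ≤ p.c ^ 4 := by
  have h1 := p.hLog
  have h2 := p.hLam
  have h3 := p.N4
  have h4 := p.hLa
  have hc : 4 ≤ p.c := by omega
  have h5 : p.c ≤ p.c ^ (p.kT + 12) := by
    calc p.c = p.c ^ 1 := (pow_one _).symm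
      _ ≤ _ := Nat.pow_le_pow_right (by omega) (by omega)
  have h6 : p.c ^ (p.kT + 12) ≤ p.La * p.c ^ (p.kT + 12) := Nat.le_mul_of_pos_left _ (by omega)
  exact ⟨by omega, Nat.one_le_pow _ _ (by omega)⟩

theorem QX_real (Psi X N g s h q k : ℕ) (B e8 : ℝ) (hN : 1 ≤ N) (hB : 0 ≤ B) (he : 0 ≤ e8)
    (hsg : s ≤ g) (hgq : g ≤ q) (h4 : q / 2 ≤ g - s) (hhN : h ≤ N)
    (hmain : (X : ℝ) * (N : ℝ) ^ (k + g) ≤
      (B * (N : ℝ) ^ g + (N : ℝ) ^ k * (((g : ℝ) + 1) ^ s * (N : ℝ) ^ s * ((N - h : ℕ) : ℝ) ^ (g - s)))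
        * Psi * e8) :
    (X : ℝ) * (N : ℝ) ^ k ≤ Psi * e8 * (B + (N : ℝ) ^ k *
      ((q : ℝ) + 1) ^ s * (((N : ℝ) - h) / N) ^ (q / 2)) := by
  have hN0 : (0 : ℝ) < N := by exact_mod_cast hN
  have hNg : (0 : ℝ) < (N : ℝ) ^ g := by positivity
  have e1 : ((N - h : ℕ) : ℝ) = (N : ℝ) - h := by push_cast [hhN]; ring
  have hr0 : (0 : ℝ) ≤ ((N : ℝ) - h) / N := by
    apply div_nonneg _ hN0.le
    have : (h : ℝ) ≤ N := by exact_mod_cast hhN
    linarith
  have hr1 : ((N : ℝ) - h) / N ≤ 1 := by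
    rw [div_le_one hN0]
    have : (0 : ℝ) ≤ h := by positivity
    linarith
  have e2 : (N : ℝ) ^ s * ((N : ℝ) - h) ^ (g - s) = (N : ℝ) ^ g * (((N : ℝ) - h) / N) ^ (g - s) := by
    have : (N : ℝ) ^ g = (N : ℝ) ^ s * (N : ℝ) ^ (g - s) := by
      rw [← pow_add]; congr 1; omega
    rw [this, div_pow]
    field_simp
  have e3 : (((N : ℝ) - h) / N) ^ (g - s) ≤ (((N : ℝ) - h) / N) ^ (q / 2) :=
    pow_le_pow_of_le_one hr0 hr1 h4
  have e4 : ((g : ℝ) + 1) ^ s ≤ ((q : ℝ) + 1) ^ s := by
    apply pow_le_pow_left₀ (by positivity)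
    have : (g : ℝ) ≤ q := by exact_mod_cast hgq
    linarith
  have e5 : ((X : ℝ) * (N : ℝ) ^ k) * (N : ℝ) ^ g ≤ (Psi * e8 * (B + (N : ℝ) ^ k *
      ((q : ℝ) + 1) ^ s * (((N : ℝ) - h) / N) ^ (q / 2))) * (N : ℝ) ^ g := by
    calc ((X : ℝ) * (N : ℝ) ^ k) * (N : ℝ) ^ g = (X : ℝ) * (N : ℝ) ^ (k + g) := by
          rw [pow_add]; ring
      _ ≤ _ := hmain
      _ = Psi * e8 * (B + (N : ℝ) ^ k * (((g : ℝ) + 1) ^ s *
            (((N : ℝ) - h) / N) ^ (g - s))) * (N : ℝ) ^ g := by
          rw [e1]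
          have : ((g : ℝ) + 1) ^ s * (N : ℝ) ^ s * ((N : ℝ) - h) ^ (g - s) =
            ((g : ℝ) + 1) ^ s * ((N : ℝ) ^ s * ((N : ℝ) - h) ^ (g - s)) := by ring
          rw [this, e2]
          ring
      _ ≤ Psi * e8 * (B + (N : ℝ) ^ k * (((q : ℝ) + 1) ^ s *
            (((N : ℝ) - h) / N) ^ (q / 2))) * (N : ℝ) ^ g := by
          gcongr
      _ = _ := by ring
  exact le_of_mul_le_mul_right e5 hNg

/-- counting the bad patterns -/
theorem QX_count {V : Type} [Fintype V] [DecidableEq V] (hQW : QW_stmt) (T : SimpleGraph V)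
    (k g s h N : ℕ) (hV : Fintype.card V = N) (hsg : s ≤ g) (I : Fin g → Finset (Fin k))
    (hI : ∀ j, k ≤ 2 * (I j).card) :
    ((Finset.univ : Finset (Fin (k + g) → V)).filter (fun w =>
      (fun i => w (Fin.castAdd g i)) ∈ BadU T k h ∨
        ((fun i => w (Fin.castAdd g i)) ∉ BadU T k h ∧
        (Finset.univ.filter (fun j : Fin g => w (Fin.natAdd k j) ∈
          (Finset.univ.filter (fun x : V => ∃ i ∈ I j, T.Adj (w (Fin.castAdd g i)) x)))).card < s))).card
      ≤ (BadU T k h).card * N ^ g + N ^ k * ((g + 1) ^ s * N ^ s * (N - h) ^ (g - s)) := by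
  -- transport to pairs
  set SS := ((Finset.univ : Finset (Fin (k + g) → V)).filter (fun w =>
      (fun i => w (Fin.castAdd g i)) ∈ BadU T k h ∨
        ((fun i => w (Fin.castAdd g i)) ∉ BadU T k h ∧
        (Finset.univ.filter (fun j : Fin g => w (Fin.natAdd k j) ∈
          (Finset.univ.filter (fun x : V => ∃ i ∈ I j, T.Adj (w (Fin.castAdd g i)) x)))).card < s)))
    with hSS
  let R : Finset ((_ : Fin k → V) × (Fin g → V)) :=
    ((Finset.univ : Finset (Fin k → V)).sigma (fun u =>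
      if u ∈ BadU T k h then (Finset.univ : Finset (Fin g → V)) else
        (Finset.univ : Finset (Fin g → V)).filter (fun w =>
          (Finset.univ.filter (fun j : Fin g => w j ∈
            (Finset.univ.filter (fun x : V => ∃ i ∈ I j, T.Adj (u i) x)))).card < s)))
  have h1 : SS.card ≤ R.card := by
    refine Finset.card_le_card_of_injOn
      (fun w => (⟨fun i => w (Fin.castAdd g i), fun j => w (Fin.natAdd k j)⟩ :
        (_ : Fin k → V) × (Fin g → V))) ?_ ?_
    · intro w hw
      have hw' := (Finset.mem_filter.mp hw).2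
      refine Finset.mem_coe.mpr (Finset.mem_sigma.mpr ⟨Finset.mem_univ _, ?_⟩)
      show (fun j => w (Fin.natAdd k j)) ∈ (if (fun i => w (Fin.castAdd g i)) ∈ BadU T k h then
        (Finset.univ : Finset (Fin g → V)) else _)
      by_cases hb : (fun i => w (Fin.castAdd g i)) ∈ BadU T k h
      · rw [if_pos hb]; exact Finset.mem_univ _
      · rw [if_neg hb]
        rcases hw' with h' | h'
        · exact absurd h' hb
        · exact Finset.mem_filter.mpr ⟨Finset.mem_univ _, h'.2⟩
    · intro w _ w' _ hww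
      have h1 : (fun i => w (Fin.castAdd g i)) = (fun i => w' (Fin.castAdd g i)) := by
        have := congrArg Sigma.fst hww
        exact this
      have h2 : (fun i => w (Fin.natAdd k i)) = (fun i => w' (Fin.natAdd k i)) := by
        have := Sigma.mk.inj hww
        exact eq_of_heq this.2
      funext i
      refine Fin.addCases (fun i => ?_) (fun i => ?_) i
      · exact congrFun h1 i
      · exact congrFun h2 i
  refine h1.trans ?_
  have h2 : R.card = ∑ u : Fin k → V, (if u ∈ BadU T k h then (Finset.univ : Finset (Fin g → V)) else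
        (Finset.univ : Finset (Fin g → V)).filter (fun w =>
          (Finset.univ.filter (fun j : Fin g => w j ∈
            (Finset.univ.filter (fun x : V => ∃ i ∈ I j, T.Adj (u i) x)))).card < s)).card :=
    Finset.card_sigma _ _
  rw [h2]
  have h3 : ∀ u : Fin k → V, (if u ∈ BadU T k h then (Finset.univ : Finset (Fin g → V)) else
        (Finset.univ : Finset (Fin g → V)).filter (fun w =>
          (Finset.univ.filter (fun j : Fin g => w j ∈
            (Finset.univ.filter (fun x : V => ∃ i ∈ I j, T.Adj (u i) x)))).card < s)).card ≤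
      (if u ∈ BadU T k h then N ^ g else 0) + (g + 1) ^ s * N ^ s * (N - h) ^ (g - s) := by
    intro u
    by_cases hb : u ∈ BadU T k h
    · rw [if_pos hb, if_pos hb]
      simp [hV]
    · rw [if_neg hb, if_neg hb, zero_add, ← hV]
      refine hQW V g s h (fun j => Finset.univ.filter (fun x : V => ∃ i ∈ I j, T.Adj (u i) x))
        hsg ?_
      intro j
      by_contra hlt
      push Not at hlt
      exact hb (Finset.mem_filter.mpr ⟨Finset.mem_univ _, I j, hI j, hlt⟩)
  refine (Finset.sum_le_sum fun u _ => h3 u).trans ?_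
  rw [Finset.sum_add_distrib]
  refine Nat.add_le_add ?_ ?_
  · rw [← Finset.sum_filter, Finset.sum_const, smul_eq_mul]
    refine Nat.mul_le_mul_right _ (Finset.card_le_card ?_)
    intro u hu
    exact (Finset.mem_filter.mp hu).2
  · rw [Finset.sum_const, smul_eq_mul, Finset.card_univ]
    refine Nat.mul_le_mul_right _ ?_
    simp [hV]

theorem QX (hLB6 : LB6_stmt) (hQN : QN_stmt) (hQW : QW_stmt) : QX_stmt := by
  intro p P O A V _ _ _ _ _ _ _ _ _ H v T v0 hA hV h3 z i A1 h s hz hA1 hdis hinj hk hhN hs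
  obtain ⟨hq4, hc4⟩ := QX_q_big p
  -- the good points
  set G := (Nb H v i z ∩ XA A H).filter (fun u => (∀ y ∈ A1, y.1 ≠ u.1) ∧
    A1.card ≤ 2 * (A1 \ Gam H v u).card) with hG
  have hGq : 3 * p.q ≤ 4 * G.card := hQN p P O A H v hA h3 z i A1 hz hA1 hdis hk
  have hGle : G.card ≤ p.q :=
    (Finset.card_le_card (Finset.filter_subset _ _)).trans (card_Nb_XA_le H v i z)
  have hkq : A1.card ≤ p.q := (Nat.le_mul_of_pos_left _ hc4).trans hk
  set k := A1.card with hkdef
  set g := G.card with hgdef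
  let a : Fin k → P × A := fun j => (A1.equivFin.symm j : P × A)
  let b : Fin g → P × A := fun j => (G.equivFin.symm j : P × A)
  have ha : ∀ j, a j ∈ A1 := fun j => (A1.equivFin.symm j).2
  have hb : ∀ j, b j ∈ G := fun j => (G.equivFin.symm j).2
  have ainj : Function.Injective a := fun x y hxy =>
    A1.equivFin.symm.injective (Subtype.ext hxy)
  have binj : Function.Injective b := fun x y hxy =>
    G.equivFin.symm.injective (Subtype.ext hxy)
  have asurj : ∀ y ∈ A1, ∃ j, a j = y := fun y hy => ⟨A1.equivFin ⟨y, hy⟩, by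
    show ((A1.equivFin.symm (A1.equivFin ⟨y, hy⟩) : A1) : P × A) = y
    rw [Equiv.symm_apply_apply]⟩
  have hGmem : ∀ u ∈ G, u ∈ Nb H v i z ∧ u ∈ XA A H ∧ (∀ y ∈ A1, y.1 ≠ u.1) ∧
      A1.card ≤ 2 * (A1 \ Gam H v u).card := by
    intro u hu
    obtain ⟨h1, h2, h3⟩ := Finset.mem_filter.mp hu
    obtain ⟨h4, h5⟩ := Finset.mem_inter.mp h1
    exact ⟨h4, h5, h2, h3⟩
  let e : Fin (k + g) → P := Fin.append (fun j => (a j).1) (fun j => (b j).1)
  have el : ∀ j : Fin k, e (Fin.castAdd g j) = (a j).1 := fun j => Fin.append_left _ _ j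
  have er : ∀ j : Fin g, e (Fin.natAdd k j) = (b j).1 := fun j => Fin.append_right _ _ j
  have einj : Function.Injective e := by
    intro x y
    refine Fin.addCases (fun x => ?_) (fun x => ?_) x
    · refine Fin.addCases (fun y => ?_) (fun y => ?_) y
      · intro hxy
        rw [el, el] at hxy
        rw [ainj (hinj _ (ha x) _ (ha y) hxy)]
      · intro hxy
        rw [el, er] at hxy
        exact absurd hxy ((hGmem _ (hb y)).2.2.1 _ (ha x))
    · refine Fin.addCases (fun y => ?_) (fun y => ?_) y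
      · intro hxy
        rw [el, er] at hxy
        exact absurd hxy.symm ((hGmem _ (hb x)).2.2.1 _ (ha y))
      · intro hxy
        rw [er, er] at hxy
        have h1 := (hGmem _ (hb x)).1
        have h2 := (hGmem _ (hb y)).1
        rw [mem_Nb] at h1 h2
        rw [binj (onL_inj h1 h2 hxy)]
  have ePA : ∀ j, e j ∈ PA H := by
    intro j
    refine Fin.addCases (fun x => ?_) (fun x => ?_) j
    · rw [el, mem_PA]
      have := hA1 (ha x)
      rwa [mem_XA] at this
    · rw [er, mem_PA]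
      have := (hGmem _ (hb x)).2.1
      rwa [mem_XA] at this
  let I : Fin g → Finset (Fin k) := fun j => Finset.univ.filter (fun x => a x ∉ Gam H v (b j))
  have hI : ∀ j, k ≤ 2 * (I j).card := by
    intro j
    have h1 := (hGmem _ (hb j)).2.2.2
    have h2 : (A1 \ Gam H v (b j)).card ≤ (I j).card := by
      have : A1 \ Gam H v (b j) ⊆ (I j).image a := by
        intro y hy
        obtain ⟨hy1, hy2⟩ := Finset.mem_sdiff.mp hy
        obtain ⟨x, hx⟩ := asurj y hy1
        refine Finset.mem_image.mpr ⟨x, Finset.mem_filter.mpr ⟨Finset.mem_univ _, ?_⟩, hx⟩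
        rw [hx]; exact hy2
      exact (Finset.card_le_card this).trans Finset.card_image_le
    omega
  set SS := ((Finset.univ : Finset (Fin (k + g) → V)).filter (fun w =>
      (fun i => w (Fin.castAdd g i)) ∈ BadU T k h ∨
        ((fun i => w (Fin.castAdd g i)) ∉ BadU T k h ∧
        (Finset.univ.filter (fun j : Fin g => w (Fin.natAdd k j) ∈
          (Finset.univ.filter (fun x : V => ∃ i ∈ I j, T.Adj (w (Fin.castAdd g i)) x)))).card < s)))
    with hSS
  have hsg : s ≤ g := by omega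
  have hcount := QX_count hQW T k g s h p.N hV hsg I hI
  have hlb := hLB6 p P O V H v0 hV (k + g) e SS einj ePA (by nlinarith)
  -- the bad labellings give bad patterns
  have hsub : (Psi p H v0).filter (fun φ => (conf p H v T φ i z A1).card < s) ⊆
      (Psi p H v0).filter (fun φ => (fun j => φ (e j)) ∈ SS) := by
    intro φ hφ
    obtain ⟨hφ1, hφ2⟩ := Finset.mem_filter.mp hφ
    refine Finset.mem_filter.mpr ⟨hφ1, Finset.mem_filter.mpr ⟨Finset.mem_univ _, ?_⟩⟩
    by_cases hbu : (fun i => φ (e (Fin.castAdd g i))) ∈ BadU T k h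
    · exact Or.inl hbu
    · refine Or.inr ⟨hbu, ?_⟩
      refine lt_of_le_of_lt ?_ hφ2
      refine Finset.card_le_card_of_injOn b ?_ ?_
      · intro j hj
        have hj' := (Finset.mem_filter.mp hj).2
        obtain ⟨x, hx, hadj⟩ := (Finset.mem_filter.mp hj').2
        have hx' : a x ∉ Gam H v (b j) := (Finset.mem_filter.mp hx).2
        simp only [el, er] at hadj
        show b j ∈ ((conf p H v T φ i z A1 : Finset (P × A)) : Set (P × A))
        rw [Finset.mem_coe, conf]
        refine Finset.mem_filter.mpr ⟨Finset.mem_inter.mpr ⟨(hGmem _ (hb j)).1,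
          (hGmem _ (hb j)).2.1⟩, a x, ha x, hadj.symm, ?_⟩
        rwa [mem_Gam] at hx'
      · intro x _ y _ hxy
        exact binj hxy
  have hexp : Real.exp (2 * ((k + g : ℕ) : ℝ) ^ 2 / (p.q : ℝ) ^ 2) ≤ Real.exp 8 := by
    apply Real.exp_le_exp.mpr
    have hq0 : (0 : ℝ) < p.q := by
      have : 0 < p.q := by omega
      exact_mod_cast this
    rw [div_le_iff₀ (by positivity)]
    have : ((k + g : ℕ) : ℝ) ≤ 2 * p.q := by
      have : k + g ≤ 2 * p.q := by omega
      exact_mod_cast this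
    have h0 : (0 : ℝ) ≤ ((k + g : ℕ) : ℝ) := by positivity
    nlinarith
  have hN := p.hN
  refine QX_real (Psi p H v0).card _ p.N g s h p.q k (BadU T k h).card (Real.exp 8) hN
    (by positivity) (Real.exp_pos _).le hsg hGle (by omega) hhN ?_
  have hc' : (SS.card : ℝ) ≤ ((BadU T k h).card : ℝ) * (p.N : ℝ) ^ g + (p.N : ℝ) ^ k *
      (((g : ℝ) + 1) ^ s * (p.N : ℝ) ^ s * ((p.N - h : ℕ) : ℝ) ^ (g - s)) := by
    exact_mod_cast hcount
  calc ((((Psi p H v0).filter (fun φ => (conf p H v T φ i z A1).card < s)).card : ℕ) : ℝ) *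
        (p.N : ℝ) ^ (k + g)
      ≤ (((Psi p H v0).filter (fun φ => (fun j => φ (e j)) ∈ SS)).card : ℝ) *
        (p.N : ℝ) ^ (k + g) := by
        refine mul_le_mul_of_nonneg_right ?_ (by positivity)
        exact_mod_cast Finset.card_le_card hsub
    _ ≤ SS.card * (Psi p H v0).card *
        Real.exp (2 * ((k + g : ℕ) : ℝ) ^ 2 / (p.q : ℝ) ^ 2) := hlb
    _ ≤ SS.card * (Psi p H v0).card * Real.exp 8 := by gcongr
    _ ≤ _ := by gcongr

end Pool.Agent.helper24.TG
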